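import Mathlib
import Pool.Graph.R_seed8.TH165.ACC.Germ
import Pool.Graph.R_seed8.TH165.ACC.Resi
import Pool.Graph.R_seed8.H135R2.VS.Der

/-!
# CNT (H895, lower semicontinuity of mlds of nondegenerate complete intersections, MP_f23696_ag)
Proof by H800.
-/

set_option autoImplicit false

namespace Pool.Agent.H895.SC

open MvPolynomial
open Pool.Agent.TH165.ACC (pr ex)

/-- CNT. -/
def S_CNT : Prop := ∀ {k : Type} [Field k] [Algebra ℂ k] {n N e : ℕ} (ζ : Fin n → k),
  (∀ l, ζ l ≠ 0) → ∀ (E : Fin N → Fin n → ℤ) (w0 : Fin n → ℤ) (J : Finset (Fin N)),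
  (∀ (b : Fin N → ℚ) (c : ℚ), (∀ k, ∑ i ∈ J, b i * (E i k : ℚ) + c * (w0 k : ℚ) = 0) →
    ∀ i ∈ J, b i = 0) →
  ∀ A : Finset (Fin n → ℤ), A.Nonempty → (∀ m ∈ A, pr m w0 = 0) →
  (∀ m ∈ A, ∀ m' ∈ A, ∀ i ∈ J, pr m (E i) = pr m' (E i)) →
  ∀ c : Fin e → (Fin n → ℤ) → k,
  (AlgebraicIndependent ℂ fun x : Fin e × {m // m ∈ A} => c x.1 x.2.1) →
  (∀ i, ∑ m ∈ A, c i m * ∏ l, ζ l ^ m l = 0) →
  ∀ {ι : Type} [Fintype ι] (H : ι → MvPolynomial (Fin n) ℂ), (∀ j, aeval ζ (H j) = 0) →
  (LinearIndependent k fun (j : ι) (i : Fin n) => aeval ζ (X i * pderiv i (H j))) →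
  (∀ j, ∃ m0 : ℤ, ∀ t ∈ (H j).support, pr (ex t) w0 = m0) →
  (∀ j, ∀ i ∈ J, ∃ m0 : ℤ, ∀ t ∈ (H j).support, pr (ex t) (E i) = m0) →
  Fintype.card ι + J.card + e + (if w0 = 0 then 0 else 1) ≤ n

namespace CNT

/-- independence of integer vectors over `ℚ` passes to any field of characteristic zero -/
theorem relk {k : Type} [Field k] [CharZero k] {κ : Type} [Fintype κ] {n : ℕ}
    (f : κ → Fin n → ℤ) (hf : LinearIndependent ℚ fun a (l : Fin n) => (f a l : ℚ))
    (b : κ → k) (hb : ∀ l, ∑ a, b a * (f a l : k) = 0) (a : κ) : b a = 0 := by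
  classical
  have h1 := Fintype.linearIndependent_iff.1 hf
  let F : (κ → ℚ) →ₗ[ℚ] (Fin n → ℚ) := Fintype.linearCombination ℚ fun a (l : Fin n) => (f a l : ℚ)
  have hF : LinearMap.ker F = ⊥ := by
    rw [LinearMap.ker_eq_bot']
    intro m hm
    funext i
    exact h1 m hm i
  obtain ⟨g, hg⟩ := F.exists_leftInverse_of_injective hF
  have h2 : ∀ a b : κ, ∑ l, (f b l : ℚ) * g (Pi.single l 1) a = if b = a then 1 else 0 := by
    intro a b
    have h3 : g (F (Pi.single b 1)) a = if b = a then 1 else 0 := by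
      have := LinearMap.congr_fun hg (Pi.single b 1)
      rw [LinearMap.comp_apply] at this
      rw [this]
      simp [Pi.single_apply, eq_comm]
    rw [← h3]
    have h4 : F (Pi.single b 1) = ∑ l, (f b l : ℚ) • Pi.single (M := fun _ => ℚ) l (1 : ℚ) := by
      funext l
      simp only [F, Fintype.linearCombination_apply, Finset.sum_apply, Pi.smul_apply, smul_eq_mul,
        Pi.single_apply]
      simp
    rw [h4, map_sum, Finset.sum_apply]
    refine Finset.sum_congr rfl fun l _ => ?_
    rw [map_smul, Pi.smul_apply, smul_eq_mul]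
  have h5 : ∀ a b : κ, ∑ l, (f b l : k) * ((g (Pi.single l 1) a : ℚ) : k) = if b = a then 1 else 0 := by
    intro a b
    have := congrArg (fun x : ℚ => (x : k)) (h2 a b)
    push_cast at this
    rw [this]
    split_ifs <;> simp
  have h6 : ∑ l, (∑ b' , b b' * (f b' l : k)) * ((g (Pi.single l 1) a : ℚ) : k) = b a := by
    simp only [Finset.sum_mul]
    rw [Finset.sum_comm]
    simp only [mul_assoc, ← Finset.mul_sum, h5]
    simp
  rw [← h6]
  simp [hb]

/-- the logarithmic derivative of a monomial -/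
theorem der_mono {k : Type} [Field k] [Algebra ℂ k] {n : ℕ} (ζ : Fin n → k) (hζ : ∀ l, ζ l ≠ 0)
    (D : Derivation ℂ k k) (m : Fin n → ℤ) :
    D (∏ l, ζ l ^ m l) = (∏ l, ζ l ^ m l) * ∑ l, (m l : k) * (D (ζ l) / ζ l) := by
  classical
  have key : ∀ s : Finset (Fin n),
      D (∏ l ∈ s, ζ l ^ m l) = (∏ l ∈ s, ζ l ^ m l) * ∑ l ∈ s, (m l : k) * (D (ζ l) / ζ l) := by
    intro s
    induction s using Finset.induction_on with
    | empty => simp
    | insert a s ha ih =>
      rw [Finset.prod_insert ha, Finset.sum_insert ha, Derivation.leibniz, ih,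
        Derivation.leibniz_zpow, smul_eq_mul, smul_eq_mul, zsmul_eq_mul, smul_eq_mul]
      rw [zpow_sub_one₀ (hζ a)]
      field_simp
      ring
  exact key Finset.univ

/-- the counting lemma for a family of integer vectors -/
theorem count {k : Type} [Field k] [Algebra ℂ k] {n e : ℕ} (ζ : Fin n → k)
    (hζ : ∀ l, ζ l ≠ 0) {κ : Type} [Fintype κ] (f : κ → Fin n → ℤ)
    (hf : LinearIndependent ℚ fun a (l : Fin n) => (f a l : ℚ))
    (A : Finset (Fin n → ℤ)) (hne : A.Nonempty)
    (hA : ∀ m ∈ A, ∀ m' ∈ A, ∀ a, pr m (f a) = pr m' (f a))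
    (c : Fin e → (Fin n → ℤ) → k)
    (hc : AlgebraicIndependent ℂ fun x : Fin e × {m // m ∈ A} => c x.1 x.2.1)
    (h0 : ∀ i, ∑ m ∈ A, c i m * ∏ l, ζ l ^ m l = 0)
    {ι : Type} [Fintype ι] (H : ι → MvPolynomial (Fin n) ℂ) (hH : ∀ j, aeval ζ (H j) = 0)
    (hG : LinearIndependent k fun (j : ι) (i : Fin n) => aeval ζ (X i * pderiv i (H j)))
    (hp : ∀ j, ∀ a, ∃ m0 : ℤ, ∀ t ∈ (H j).support, pr (ex t) (f a) = m0) :
    Fintype.card ι + Fintype.card κ + e ≤ n := by
  classical
  have hchar : CharZero k := charZero_of_injective_algebraMap (algebraMap ℂ k).injective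
  obtain ⟨m0, hm0⟩ := hne
  have hD : ∀ i : Fin e, ∃ D : Derivation ℂ k k, ∀ x : Fin e × {m // m ∈ A},
      D (c x.1 x.2.1) = if x.1 = i ∧ x.2.1 = m0 then 1 else 0 := fun i =>
    Pool.Agent.H135R2.VS.exists_der hc fun x => if x.1 = i ∧ x.2.1 = m0 then 1 else 0
  choose D hD using hD
  set ν : Fin e → Fin n → k := fun i l => D i (ζ l) / ζ l with hν
  set z : (Fin n → ℤ) → k := fun m => ∏ l, ζ l ^ m l with hz
  have hz0 : ∀ m, z m ≠ 0 := fun m => Finset.prod_ne_zero_iff.2 fun l _ => zpow_ne_zero _ (hζ l)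
  -- the functionals `λ_i`
  let L : Fin e → (Fin n → k) →ₗ[k] k := fun i =>
    ∑ m ∈ A, (c i m * z m) • ∑ l, (m l : k) • LinearMap.proj (R := k) (φ := fun _ : Fin n => k) l
  have hL : ∀ i u, L i u = ∑ m ∈ A, c i m * z m * ∑ l, (m l : k) * u l := by
    intro i u
    simp [L, LinearMap.sum_apply]
  have hL1 : ∀ i i', L i' (ν i) = if i' = i then - z m0 else 0 := by
    intro i i'
    have h1 := congrArg (D i) (h0 i')
    rw [map_sum, map_zero] at h1
    have h2 : ∀ m ∈ A, D i (c i' m * ∏ l, ζ l ^ m l) =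
        c i' m * z m * (∑ l, (m l : k) * ν i l) + (if i' = i ∧ m = m0 then z m0 else 0) := by
      intro m hm
      rw [Derivation.leibniz, der_mono ζ hζ, smul_eq_mul, smul_eq_mul]
      have h3 := hD i (i', ⟨m, hm⟩)
      simp only at h3
      rw [h3]
      by_cases h4 : i' = i ∧ m = m0
      · rw [if_pos h4, if_pos h4, h4.2]
        simp only [hz, hν]
        ring
      · rw [if_neg h4, if_neg h4]
        simp only [hz, hν]
        ring
    rw [Finset.sum_congr rfl h2, Finset.sum_add_distrib, ← hL] at h1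
    have h5 : ∑ m ∈ A, (if i' = i ∧ m = m0 then z m0 else 0) = if i' = i then z m0 else 0 := by
      by_cases h6 : i' = i
      · simp [h6, hm0]
      · simp [h6]
    rw [h5] at h1
    by_cases h6 : i' = i
    · rw [if_pos h6] at h1 ⊢
      linear_combination h1
    · rw [if_neg h6] at h1 ⊢
      simpa using h1
  have hL2 : ∀ i a, L i (fun l => (f a l : k)) = 0 := by
    intro i a
    have h1 : ∀ m ∈ A, c i m * z m * ∑ l, (m l : k) * (f a l : k) =
        c i m * z m * ((pr m0 (f a) : ℤ) : k) := by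
      intro m hm
      rw [hA m0 hm0 m hm a, pr]
      push_cast
      rfl
    rw [hL, Finset.sum_congr rfl h1, ← Finset.sum_mul, h0 i, zero_mul]
  -- the family
  let g : κ ⊕ Fin e → Fin n → k := Sum.elim (fun a l => (f a l : k)) ν
  have hg : LinearIndependent k g := by
    rw [Fintype.linearIndependent_iff]
    intro b hb
    rw [Fintype.sum_sum_type] at hb
    have h1 : ∀ i, b (Sum.inr i) = 0 := by
      intro i
      have h2 := congrArg (L i) hb
      simp only [g, Sum.elim_inl, Sum.elim_inr, map_add, map_sum, map_smul, smul_eq_mul, hL2,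
        mul_zero, Finset.sum_const_zero, zero_add, hL1, mul_ite, Finset.sum_ite_eq,
        Finset.mem_univ, if_true, map_zero] at h2
      have h3 : b (Sum.inr i) * - z m0 = 0 := h2
      exact (mul_eq_zero.1 h3).resolve_right (neg_ne_zero.2 (hz0 m0))
    rintro (a | i)
    · refine relk f hf (fun a => b (Sum.inl a)) (fun l => ?_) a
      have h2 := congrFun hb l
      simpa [g, h1, Finset.sum_apply] using h2
    · exact h1 i
  -- orthogonality
  let G : Matrix ι (Fin n) k := Matrix.of fun (j : ι) (i : Fin n) => aeval ζ (X i * pderiv i (H j))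
  let B : Matrix (κ ⊕ Fin e) (Fin n) k := Matrix.of g
  have hGr : G.rank = Fintype.card ι := LinearIndependent.rank_matrix hG
  have hBr : B.rank = Fintype.card (κ ⊕ Fin e) := LinearIndependent.rank_matrix hg
  have hGB : G * B.transpose = 0 := by
    ext j x
    rw [Matrix.mul_apply, Matrix.zero_apply]
    rcases x with a | i
    · obtain ⟨p, hp⟩ := hp j a
      have h1 : ∑ l, C ((f a l : ℤ) : ℂ) * (X l * pderiv l (H j)) = C (p : ℂ) * H j := by
        ext s
        rw [coeff_sum]
        simp only [coeff_C_mul, Pool.Agent.TH165.ACC.coeff_euler]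
        by_cases hs : (H j).coeff s = 0
        · simp [hs]
        · have h2 := hp s (mem_support_iff.2 hs)
          rw [← h2, pr]
          push_cast
          rw [Finset.sum_mul]
          refine Finset.sum_congr rfl fun l _ => ?_
          simp only [ex]
          push_cast
          ring
      have h2 := congrArg (aeval ζ) h1
      rw [map_mul, hH, mul_zero, map_sum] at h2
      rw [← h2]
      refine Finset.sum_congr rfl fun l _ => ?_
      simp only [G, B, g, Matrix.of_apply, Matrix.transpose_apply, Sum.elim_inl, map_mul]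
      rw [aeval_C, map_intCast]
      ring
    · have h1 := congrArg (D i) (hH j)
      rw [map_zero, Pool.Agent.W497.Mld.der_aeval_sum] at h1
      rw [← h1]
      refine Finset.sum_congr rfl fun l _ => ?_
      simp only [G, B, g, hν, Matrix.of_apply, Matrix.transpose_apply, Sum.elim_inr, map_mul,
        aeval_X]
      have := hζ l
      field_simp
  have h1 := Matrix.rank_add_rank_le_card_of_mul_eq_zero hGB
  rw [Matrix.rank_transpose, hGr, hBr, Fintype.card_sum, Fintype.card_fin, Fintype.card_fin] at h1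
  omega

end CNT

theorem cnt : S_CNT := by
  classical
  intro k _ _ n N e ζ hζ E w0 J hJ A hne hA0 hA c hc h0 ι _ H hH hG hp0 hp
  by_cases hw : w0 = 0
  · rw [if_pos hw, add_zero]
    have h1 : LinearIndependent ℚ fun (a : J) (l : Fin n) => (E a.1 l : ℚ) := by
      rw [Fintype.linearIndependent_iff]
      intro b hb a
      have h2 := hJ (fun i => if h : i ∈ J then b ⟨i, h⟩ else 0) 0 (fun l => ?_) a.1 a.2
      · simpa using h2
      · have h3 := congrFun hb l
        rw [Finset.sum_apply, ] at h3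
        rw [← Finset.sum_coe_sort J]
        simpa using h3
    have h2 := CNT.count ζ hζ (fun (a : J) => E a.1) h1 A hne
      (fun m hm m' hm' a => hA m hm m' hm' a.1 a.2) c hc h0 H hH hG
      (fun j a => hp j a.1 a.2)
    rwa [Fintype.card_coe] at h2
  · rw [if_neg hw]
    have h1 : LinearIndependent ℚ fun (a : Option J) (l : Fin n) =>
        ((a.elim w0 (fun a => E a.1)) l : ℚ) := by
      rw [Fintype.linearIndependent_iff]
      intro b hb
      have hb' : ∀ l, ∑ i ∈ J, (if h : i ∈ J then b (some ⟨i, h⟩) else 0) * (E i l : ℚ) +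
          b none * (w0 l : ℚ) = 0 := by
        intro l
        have h3 := congrFun hb l
        rw [Finset.sum_apply, Fintype.sum_option] at h3
        rw [← Finset.sum_coe_sort J, add_comm]
        simpa using h3
      have h2 := hJ _ _ hb'
      have h3 : ∀ i : J, b (some i) = 0 := fun i => by simpa using h2 i.1 i.2
      have h4 : b none = 0 := by
        obtain ⟨l, hl⟩ := Function.ne_iff.1 hw
        have h5 := hb' l
        rw [Finset.sum_eq_zero (fun i hi => by rw [dif_pos hi, h3 ⟨i, hi⟩, zero_mul]),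
          zero_add] at h5
        refine (mul_eq_zero.1 h5).resolve_right ?_
        simpa using hl
      rintro (_ | a)
      · exact h4
      · exact h3 a
    have h2 := CNT.count ζ hζ (fun (a : Option J) => a.elim w0 (fun a => E a.1)) h1 A hne
      (fun m hm m' hm' a => ?_) c hc h0 H hH hG ?_
    · rw [Fintype.card_option, Fintype.card_coe] at h2
      omega
    · rcases a with _ | a
      · simp only [Option.elim]
        rw [hA0 m hm, hA0 m' hm']
      · exact hA m hm m' hm' a.1 a.2
    · rintro j (_ | a)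
      · exact hp0 j
      · exact hp j a.1 a.2

end Pool.Agent.H895.SC
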